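import Mathlib
import Pool.Agent.Y811.PC.Stm3

/-! PC-HM2: the mean of `log⁺ (R / ‖ψ - c₀‖)` on a circle. -/

set_option autoImplicit false

namespace Pool.Agent.Y388.PC

open MeasureTheory Real

theorem core (F : ℝ → ℂ) (hF : Continuous F) (c₀ : ℂ) (hne : ∀ θ, F θ ≠ c₀) (M₀ R B : ℝ)
    (hM₀ : ∀ θ, ‖F θ‖ ≤ M₀) (hR : 0 < R)
    (hB : ∀ φ : ℝ, ∫ θ in (0 : ℝ)..(2 * π), Real.log ‖circleMap c₀ R φ - F θ‖ ≤ 2 * π * B) :
    ∫ θ in (0 : ℝ)..(2 * π), max (Real.log R) (Real.log ‖F θ - c₀‖) ≤ 2 * π * B := by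
  have hπ : (0 : ℝ) ≤ 2 * π := by positivity
  have hπ' : (0 : ℝ) < 2 * π := by positivity
  set μ : Measure ℝ := volume.restrict (Set.Ioc 0 (2 * π)) with hμ
  set M : ℝ := max 1 (M₀ + ‖c₀‖ + R) with hM
  have hM1 : 1 ≤ M := le_max_left _ _
  have hMn : ∀ θ φ : ℝ, ‖circleMap c₀ R φ - F θ‖ ≤ M := by
    intro θ φ
    have h1 : ‖circleMap c₀ R φ‖ ≤ ‖c₀‖ + R := by
      have h2 : circleMap c₀ R φ = c₀ + (R * Complex.exp (φ * Complex.I)) := rfl
      rw [h2]
      refine (norm_add_le _ _).trans ?_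
      rw [norm_mul, Complex.norm_exp_ofReal_mul_I, Complex.norm_real, Real.norm_of_nonneg hR.le, mul_one]
    calc ‖circleMap c₀ R φ - F θ‖ ≤ ‖circleMap c₀ R φ‖ + ‖F θ‖ := norm_sub_le _ _
      _ ≤ M₀ + ‖c₀‖ + R := by linarith [hM₀ θ]
      _ ≤ M := le_max_right _ _
  set f : ℝ → ℝ → ℝ := fun θ φ => Real.log M - Real.log ‖circleMap c₀ R φ - F θ‖ with hf
  have hf0 : ∀ θ φ, 0 ≤ f θ φ := by
    intro θ φ
    rw [hf]
    simp only
    rw [sub_nonneg]
    rcases eq_or_lt_of_le (norm_nonneg (circleMap c₀ R φ - F θ)) with h | h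
    · rw [← h, Real.log_zero]
      exact Real.log_nonneg hM1
    · exact Real.log_le_log h (hMn θ φ)
  -- the sections
  have hsec : ∀ θ, Integrable (fun φ => Real.log ‖circleMap c₀ R φ - F θ‖) μ := by
    intro θ
    have h1 : CircleIntegrable (fun z => Real.log ‖z - F θ‖) c₀ R := circleIntegrable_log_norm_sub_const R
    have h2 : IntervalIntegrable (fun φ => Real.log ‖circleMap c₀ R φ - F θ‖) volume 0 (2 * π) := h1
    exact (intervalIntegrable_iff_integrableOn_Ioc_of_le hπ).1 h2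
  have hval : ∀ θ, ∫ φ, f θ φ ∂μ = 2 * π * (Real.log M - max (Real.log R) (Real.log ‖F θ - c₀‖)) := by
    intro θ
    have h1 := circleAverage_log_norm_sub_const_eq_log_radius_add_posLog (a := F θ) (c := c₀) (R := R) hR.ne'
    rw [circleAverage_def, smul_eq_mul] at h1
    have h2 : ∫ φ in (0 : ℝ)..(2 * π), Real.log ‖circleMap c₀ R φ - F θ‖ =
        2 * π * (Real.log R + posLog (R⁻¹ * ‖c₀ - F θ‖)) := by
      rw [← h1]
      field_simp
    rw [intervalIntegral.integral_of_le hπ] at h2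
    have h3 : Real.log R + posLog (R⁻¹ * ‖c₀ - F θ‖) = max (Real.log R) (Real.log ‖F θ - c₀‖) := by
      have h4 : 0 < ‖F θ - c₀‖ := norm_pos_iff.2 (sub_ne_zero.2 (hne θ))
      rw [norm_sub_rev]
      change Real.log R + max 0 (Real.log (R⁻¹ * ‖F θ - c₀‖)) = _
      rw [Real.log_mul (inv_ne_zero hR.ne') h4.ne', Real.log_inv, ← max_add_add_left]
      congr 1 <;> ring
    rw [h3] at h2
    rw [hf]
    simp only
    rw [integral_sub (integrable_const _) (hsec θ), h2, integral_const, hμ, Measure.real,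
      Measure.restrict_apply MeasurableSet.univ, Set.univ_inter, Real.volume_Ioc, sub_zero,
      ENNReal.toReal_ofReal hπ, smul_eq_mul]
    ring
  have hcont : Continuous fun θ => max (Real.log R) (Real.log ‖F θ - c₀‖) := by
    apply Continuous.max continuous_const
    apply Continuous.log
    · fun_prop
    · intro θ
      exact (norm_pos_iff.2 (sub_ne_zero.2 (hne θ))).ne'
  have hint1 : Integrable (fun θ => max (Real.log R) (Real.log ‖F θ - c₀‖)) μ :=
    (intervalIntegrable_iff_integrableOn_Ioc_of_le hπ).1 (hcont.intervalIntegrable _ _)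
  have hmeas : Measurable (Function.uncurry f) := by
    have h1 : Continuous fun p : ℝ × ℝ => circleMap c₀ R p.2 - F p.1 :=
      ((continuous_circleMap c₀ R).comp continuous_snd).sub (hF.comp continuous_fst)
    exact measurable_const.sub (Real.measurable_log.comp h1.norm.measurable)
  have hint : Integrable (Function.uncurry f) (μ.prod μ) := by
    rw [integrable_prod_iff hmeas.aestronglyMeasurable]
    constructor
    · exact Filter.Eventually.of_forall fun θ => (integrable_const _).sub (hsec θ)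
    · have h1 : (fun θ => ∫ φ, ‖Function.uncurry f (θ, φ)‖ ∂μ) =
          fun θ => 2 * π * (Real.log M - max (Real.log R) (Real.log ‖F θ - c₀‖)) := by
        funext θ
        rw [← hval θ]
        apply integral_congr_ae
        exact Filter.Eventually.of_forall fun φ => Real.norm_of_nonneg (hf0 θ φ)
      rw [h1]
      exact ((integrable_const _).sub hint1).const_mul _
  have hswap : ∫ θ, ∫ φ, f θ φ ∂μ ∂μ = ∫ φ, ∫ θ, f θ φ ∂μ ∂μ := integral_integral_swap hint
  have hlow : 2 * π * (2 * π * (Real.log M - B)) ≤ ∫ φ, ∫ θ, f θ φ ∂μ ∂μ := by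
    have h1 : ∫ φ : ℝ, (2 * π * (Real.log M - B)) ∂μ = 2 * π * (2 * π * (Real.log M - B)) := by
      rw [integral_const, hμ, Measure.real,
        Measure.restrict_apply MeasurableSet.univ, Set.univ_inter, Real.volume_Ioc, sub_zero,
        ENNReal.toReal_ofReal hπ, smul_eq_mul]
    rw [← h1]
    apply integral_mono_ae (integrable_const _) hint.integral_prod_right
    filter_upwards [hint.prod_left_ae] with φ hφ
    have h2 : Integrable (fun θ => Real.log ‖circleMap c₀ R φ - F θ‖) μ := by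
      have h3 := (integrable_const (μ := μ) (Real.log M)).sub hφ
      refine h3.congr (Filter.Eventually.of_forall fun θ => ?_)
      simp [Function.uncurry, hf]
    have h4 := hB φ
    rw [intervalIntegral.integral_of_le hπ] at h4
    change _ ≤ ∫ θ, f θ φ ∂μ
    rw [hf]
    simp only
    rw [integral_sub (integrable_const _) h2, integral_const, hμ, Measure.real,
      Measure.restrict_apply MeasurableSet.univ, Set.univ_inter, Real.volume_Ioc, sub_zero,
      ENNReal.toReal_ofReal hπ, smul_eq_mul]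
    linarith
  have hup : ∫ θ, ∫ φ, f θ φ ∂μ ∂μ = 2 * π * (2 * π * Real.log M -
      ∫ θ in (0 : ℝ)..(2 * π), max (Real.log R) (Real.log ‖F θ - c₀‖)) := by
    simp only [hval]
    rw [integral_const_mul, integral_sub (integrable_const _) hint1, integral_const,
      intervalIntegral.integral_of_le hπ, hμ, Measure.real,
      Measure.restrict_apply MeasurableSet.univ, Set.univ_inter, Real.volume_Ioc, sub_zero,
      ENNReal.toReal_ofReal hπ, smul_eq_mul]
  rw [hswap] at hup
  rw [hup] at hlow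
  have h5 := le_of_mul_le_mul_left hlow hπ'
  linarith

open Pool.Agent.Y811.PC Pool.Agent.H712R2 Pool.Agent.H713R2 N62a1eb23

theorem t_HM2 (h : S_HM1) : S_HM2 := by
  intro d hd ψ hψ c₀ r R H hc₀ hr hR hH hW
  obtain ⟨h1, h2⟩ := h d hd ψ hψ r hr
  have hr0 : 0 < r := by linarith
  have hnorm : ∀ θ : ℝ, ‖(r : ℂ) * circleMap 0 1 θ‖ = r := by
    intro θ
    rw [norm_mul, Complex.norm_real, Real.norm_of_nonneg hr0.le, norm_circleMap_zero, abs_one, mul_one]
  set F : ℝ → ℂ := fun θ => ψ (r * circleMap 0 1 θ) with hF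
  have hψc : ContinuousOn ψ {z : ℂ | 1 < ‖z‖} := hψ.diff.continuousOn
  have hFc : Continuous F := by
    apply hψc.comp_continuous
    · exact continuous_const.mul (continuous_circleMap 0 1)
    · intro θ
      change 1 < ‖(r : ℂ) * circleMap 0 1 θ‖
      rw [hnorm]; exact hr
  have hK : ∀ w : ℂ, 1 < ‖w‖ → ψ w ∉ multibrotSet d := by
    intro w hw
    have : ψ w ∈ ψ '' {z : ℂ | 1 < ‖z‖} := ⟨w, hw, rfl⟩
    rw [hψ.image] at this
    exact this
  have hne : ∀ θ, F θ ≠ c₀ := by
    intro θ hθ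
    apply hK (r * circleMap 0 1 θ) (by rw [hnorm]; exact hr)
    have h3 : ψ (r * circleMap 0 1 θ) = c₀ := hθ
    rw [h3]
    exact hc₀
  obtain ⟨M₀, hM₀⟩ : ∃ M₀ : ℝ, ∀ θ, ‖F θ‖ ≤ M₀ := by
    obtain ⟨M₀, h3⟩ := (isCompact_sphere (0 : ℂ) r).exists_bound_of_continuousOn
      (hψc.mono fun z hz => by
        rw [mem_sphere_zero_iff_norm] at hz
        change 1 < ‖z‖
        rw [hz]; exact hr)
    refine ⟨M₀, fun θ => h3 _ ?_⟩
    rw [mem_sphere_zero_iff_norm]
    exact hnorm θ
  have hπ : (0 : ℝ) < 2 * π := by positivity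
  have hlr : 0 < Real.log r := Real.log_pos hr
  have hav : ∀ f : ℂ → ℝ, ∫ θ in (0 : ℝ)..(2 * π), f (circleMap 0 1 θ) = 2 * π * circleAverage f 0 1 := by
    intro f
    rw [circleAverage_def, smul_eq_mul]
    field_simp
  have hB : ∀ φ : ℝ, ∫ θ in (0 : ℝ)..(2 * π), Real.log ‖circleMap c₀ R φ - F θ‖ ≤
      2 * π * Real.log (max r H) := by
    intro φ
    have e1 : ∫ θ in (0 : ℝ)..(2 * π), Real.log ‖circleMap c₀ R φ - F θ‖ =
        2 * π * circleAverage (fun x => Real.log ‖ψ (r * x) - circleMap c₀ R φ‖) 0 1 := by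
      rw [← hav]
      apply intervalIntegral.integral_congr
      intro θ _
      simp only [hF]
      rw [norm_sub_rev]
    rw [e1]
    apply mul_le_mul_of_nonneg_left _ hπ.le
    by_cases hz : circleMap c₀ R φ ∈ multibrotSet d
    · rw [h1 _ hz]
      exact Real.log_le_log hr0 (le_max_left _ _)
    · have h3 : circleMap c₀ R φ ∈ ψ '' {z : ℂ | 1 < ‖z‖} := by
        rw [hψ.image]; exact hz
      obtain ⟨w, hw, hwz⟩ := h3
      rw [← hwz, h2 w hw]
      have h4 : ‖w‖ ≤ H := by
        apply hW w hw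
        rw [hwz]
        have h5 : circleMap c₀ R φ - c₀ = circleMap 0 R φ := circleMap_sub_center c₀ R φ
        rw [h5, norm_circleMap_zero, abs_of_pos hR]
      exact Real.log_le_log (lt_max_of_lt_left hr0) (max_le_max le_rfl h4)
  have hmain := core F hFc c₀ hne M₀ R (Real.log (max r H)) hM₀ hR hB
  have hc1 : Continuous fun θ => Real.log ‖F θ - c₀‖ := by
    apply Continuous.log
    · exact (hFc.sub continuous_const).norm
    · intro θ
      exact (norm_pos_iff.2 (sub_ne_zero.2 (hne θ))).ne'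
  have hc2 : Continuous fun θ => max (Real.log R) (Real.log ‖F θ - c₀‖) := continuous_const.max hc1
  have e2 : circleAverage (fun x => max 0 (Real.log (R / ‖ψ (r * x) - c₀‖))) 0 1 =
      (2 * π)⁻¹ * ((∫ θ in (0 : ℝ)..(2 * π), max (Real.log R) (Real.log ‖F θ - c₀‖)) -
        ∫ θ in (0 : ℝ)..(2 * π), Real.log ‖F θ - c₀‖) := by
    rw [circleAverage_def, smul_eq_mul, ← intervalIntegral.integral_sub (hc2.intervalIntegrable _ _)
      (hc1.intervalIntegrable _ _)]
    congr 1
    apply intervalIntegral.integral_congr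
    intro θ _
    have h4 : 0 < ‖F θ - c₀‖ := norm_pos_iff.2 (sub_ne_zero.2 (hne θ))
    change max 0 (Real.log (R / ‖F θ - c₀‖)) = max (Real.log R) (Real.log ‖F θ - c₀‖) - Real.log ‖F θ - c₀‖
    rw [Real.log_div hR.ne' h4.ne', max_comm (Real.log R), ← max_sub_sub_right, sub_self]
  have e3 : ∫ θ in (0 : ℝ)..(2 * π), Real.log ‖F θ - c₀‖ = 2 * π * Real.log r := by
    rw [← h1 c₀ hc₀, ← hav]
  rw [e2, e3]
  have h6 : Real.log (max r H) - Real.log r ≤ Real.log H := by
    have hlH : 0 ≤ Real.log H := Real.log_nonneg hH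
    rcases le_total r H with h7 | h7
    · rw [max_eq_right h7]; linarith
    · rw [max_eq_left h7]; linarith
  rw [inv_mul_le_iff₀ hπ]
  have h8 : 2 * π * (Real.log (max r H) - Real.log r) ≤ 2 * π * Real.log H :=
    mul_le_mul_of_nonneg_left h6 hπ.le
  linarith

end Pool.Agent.Y388.PC
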